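import Pool.Agent.Helper92.BQ.Defs
import Pool.Agent.Helper25.P2.Mix

/-!
# Lemma E (phase 2, note 2116)

If the contraction factor at small slopes tends to zero, then for every `N` and `δ > 0` families
of sufficiently small slope satisfy `EN A N ≤ δ D(Y)`.
-/

set_option autoImplicit false

namespace Pool.Agent.Helper88.P2

open Finset Pool.Agent.Helper15.BP Pool.Agent.Helper15.BP.Fam Pool.Agent.Helper92.BQ

theorem log_index_nonneg {G : Type} [AddCommGroup G] [Finite G] (H : AddSubgroup G) :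
    0 ≤ Real.log H.index := by
  refine Real.log_nonneg ?_
  have h : H.index ≠ 0 := AddSubgroup.index_ne_zero_of_finite
  exact_mod_cast Nat.one_le_iff_ne_zero.2 h

theorem Contr_anti {k k' σ : ℝ} (h : Contr k σ) (hk : k' ≤ k) : Contr k' σ := by
  intro G _ _ h2 A hA
  refine h G h2 A fun K => (hA K).trans ?_
  exact mul_le_mul_of_nonneg_right hk (log_index_nonneg K)

theorem LE_anti {N : ℕ} {c c' δ : ℝ} (h : LE N c δ) (hc : c' ≤ c) : LE N c' δ := by
  intro G _ _ h2 A hA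
  refine h G h2 A fun K => (hA K).trans ?_
  exact mul_le_mul_of_nonneg_right hc (log_index_nonneg K)

section

variable {G : Type} [AddCommGroup G]

theorem EN_one (A : Fam G) : EN A 1 = 0 := by
  unfold EN
  simp

theorem EN_zero (A : Fam G) : EN A 0 = 0 := by
  unfold EN
  simp

theorem EN_succ (A : Fam G) (j : ℕ) :
    EN A (j + 2) = EN A (j + 1) + (A.add (Gf A j)).D ⊥ := by
  unfold EN
  have h1 : j + 2 - 1 = j + 1 := by omega
  have h2 : j + 1 - 1 = j := by omega
  rw [h1, h2, Finset.sum_range_succ]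

theorem EN_nonneg [Finite G] (A : Fam G) (N : ℕ) : 0 ≤ EN A N :=
  Finset.sum_nonneg fun _ _ => D_nonneg _ _

theorem Gf_resV (A : Fam G) (H : AddSubgroup G) (j : ℕ) :
    Sim ((Gf A j).resV H) (Gf (A.resV H) j) := by
  induction j with
  | zero => exact Sim.refl _
  | succ j ih =>
    show Sim ((A.fib (Gf A j)).resV H) ((A.resV H).fib (Gf (A.resV H) j))
    exact (Sim.fib_resV A (Gf A j) H).trans ((Sim.refl _).fib ih)

/-- the deficiencies of the conditional families -/
theorem Gf_D [Finite G] (A : Fam G) (H : AddSubgroup G) (j : ℕ) :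
    (Gf A j).D H = ((j : ℝ) + 1) * A.D H + EN (A.resV H) (j + 1) - EN A (j + 1) := by
  induction j with
  | zero =>
    show A.D H = _
    rw [zero_add, EN_one, EN_one]
    push_cast
    ring
  | succ j ih =>
    have h1 : (Gf A (j + 1)).D H = (A.fib (Gf A j)).D H := rfl
    rw [h1, fib_D_general, ih, EN_succ, EN_succ,
      ((Sim.refl (A.resV H)).add (Gf_resV A H j)).D_eq ⊥]
    push_cast
    ring

theorem D_of_subsingleton [Finite G] [Subsingleton G] (A : Fam G) (H : AddSubgroup G) :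
    A.D H = 0 := by
  refine le_antisymm ?_ (D_nonneg _ _)
  refine (D_le_log_index A H).trans ?_
  have h1 : H = ⊤ := Subsingleton.elim _ _
  rw [h1, AddSubgroup.index_top, Nat.cast_one, Real.log_one]

theorem EN_of_subsingleton [Finite G] [Subsingleton G] (A : Fam G) (N : ℕ) : EN A N = 0 :=
  Finset.sum_eq_zero fun _ _ => D_of_subsingleton _ _

theorem Gf_D_bot [Finite G] (A : Fam G) (j : ℕ) :
    (Gf A j).D ⊥ = ((j : ℝ) + 1) * A.D ⊥ - EN A (j + 1) := by
  rw [Gf_D]
  have h1 : EN (A.resV (⊥ : AddSubgroup G)) (j + 1) = 0 := EN_of_subsingleton _ _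
  rw [h1]
  ring

/-- chain inequality for `EN` -/
theorem EN_chain [Finite G] (A : Fam G) (K : AddSubgroup G) (N : ℕ) :
    EN A N ≤ N * A.D K + EN (A.resV K) N := by
  cases N with
  | zero => rw [EN_zero, EN_zero]; simp
  | succ j =>
    have h1 := D_nonneg (Gf A j) K
    rw [Gf_D] at h1
    push_cast
    linarith

/-- a subgroup maximising `D_K - c log [G:K]` -/
theorem exists_max_slope [Finite G] (A : Fam G) (c : ℝ) :
    ∃ H : AddSubgroup G, (∀ K : AddSubgroup G,
      A.D K - c * Real.log K.index ≤ A.D H - c * Real.log H.index) ∧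
      c * Real.log H.index ≤ A.D H ∧
      (∀ K : AddSubgroup H, (A.resV H).D K ≤ c * Real.log K.index) := by
  obtain ⟨H, hH⟩ := Finite.exists_max (fun K : AddSubgroup G => A.D K - c * Real.log K.index)
  refine ⟨H, hH, ?_, fun K => ?_⟩
  · have h1 := hH ⊤
    simp only [D_top, AddSubgroup.index_top, Nat.cast_one, Real.log_one, mul_zero, sub_zero] at h1
    linarith
  · have h1 := hH (K.map H.subtype)
    simp only [log_index_map] at h1
    rw [resV_D]
    linarith

/-- the bound for `EN` without a slope condition -/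
theorem EN_le_max [Finite G] (h2 : ∀ x : G, x + x = 0) {N : ℕ} {c δ : ℝ} (hδ : 0 ≤ δ)
    (hLE : LE N c δ) (B : Fam G) :
    ∃ K : AddSubgroup G, c * Real.log K.index ≤ B.D K ∧ EN B N ≤ N * B.D K + δ * B.D ⊥ := by
  obtain ⟨K, -, h3, h4⟩ := exists_max_slope B c
  refine ⟨K, h3, ?_⟩
  have h5 := hLE K (fun x => Subtype.ext (h2 x)) (B.resV K) h4
  rw [resV_D_bot] at h5
  have h6 := EN_chain B K N
  have h7 : δ * (B.D ⊥ - B.D K) ≤ δ * B.D ⊥ :=
    mul_le_mul_of_nonneg_left (by linarith [D_nonneg B K]) hδ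
  linarith

/-- the deficiencies of the conditional families at small slope -/
theorem Gf_D_le [Finite G] (h2 : ∀ x : G, x + x = 0) {j : ℕ} {c δ : ℝ} (hδ : 0 ≤ δ)
    (hLE : LE (j + 1) (2 * c) δ) (A : Fam G) (hA : ∀ K : AddSubgroup G, A.D K ≤ c * Real.log K.index)
    (H : AddSubgroup G) :
    (Gf A j).D H ≤ 2 * ((j : ℝ) + 1) * c * Real.log H.index + δ * A.D ⊥ := by
  obtain ⟨K, h3, h4⟩ := EN_le_max (fun x : H => Subtype.ext (h2 x)) hδ hLE (A.resV H)
  rw [resV_D_bot] at h4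
  rw [resV_D] at h3 h4
  have h5 := hA (K.map H.subtype)
  rw [log_index_map] at h5
  have h6 : A.D (K.map H.subtype) ≤ 2 * c * Real.log H.index - A.D H := by
    linarith
  have h7 : δ * (A.D ⊥ - A.D H) ≤ δ * A.D ⊥ :=
    mul_le_mul_of_nonneg_left (by linarith [D_nonneg A H]) hδ
  have h8 : ((j + 1 : ℕ) : ℝ) * (A.D (K.map H.subtype) - A.D H) ≤
      ((j : ℝ) + 1) * (2 * c * Real.log H.index - 2 * A.D H) := by
    push_cast
    exact mul_le_mul_of_nonneg_left (by linarith) (by positivity)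
  have h9 : 0 ≤ ((j : ℝ) + 1) * A.D H := mul_nonneg (by positivity) (D_nonneg A H)
  rw [Gf_D]
  have h10 := EN_nonneg A (j + 1)
  nlinarith

/-- the new summand -/
theorem add_Gf_le [Finite G] (h2 : ∀ x : G, x + x = 0) {j : ℕ} {c δ s : ℝ} (hc : 0 < c)
    (hδ : 0 ≤ δ) (hs : 0 ≤ s) (hLE : LE (j + 1) (2 * c) δ) (hC : Contr ((2 * j + 3) * c) s)
    (A : Fam G) (hA : ∀ K : AddSubgroup G, A.D K ≤ c * Real.log K.index) :
    (A.add (Gf A j)).D ⊥ ≤ (2 * δ + (j + 2) * s) * A.D ⊥ := by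
  have hp0 : (0 : ℝ) ≤ 1 / 2 := by norm_num
  have hp1 : (1 / 2 : ℝ) ≤ 1 := by norm_num
  set U : Fam G := mixF (1 / 2) hp0 hp1 (Gf A j) A with hU
  obtain ⟨H, -, h3, h4⟩ := exists_max_slope U ((2 * j + 3) * c)
  -- the mean deficiency at `H`
  have h5 : U.D H = 1 / 2 * (Gf A j).D H + (1 - 1 / 2) * A.D H := mixF_D hp0 hp1 _ _ H
  have h6 := Gf_D_le h2 hδ hLE A hA H
  have h7 : U.D H ≤ δ * A.D ⊥ := by
    have h8 := hA H
    linarith
  -- the deficiency at the bottom
  have h8 : U.D ⊥ ≤ ((j : ℝ) + 2) / 2 * A.D ⊥ := by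
    have h9 : U.D ⊥ = 1 / 2 * (Gf A j).D ⊥ + (1 - 1 / 2) * A.D ⊥ := mixF_D hp0 hp1 _ _ ⊥
    rw [h9, Gf_D_bot]
    have h10 := EN_nonneg A (j + 1)
    linarith
  -- the sum of two copies of the mixture
  have h9 := hC H (fun x => Subtype.ext (h2 x)) (U.resV H) h4
  rw [resV_D_bot] at h9
  have h10 := add_le_mod_res U U H
  rw [add_D_mod] at h10
  have h11 := D_add_le U U H
  have h12 : (U.add U).D ⊥ = (1 / 2 : ℝ) ^ 2 * ((Gf A j).add (Gf A j)).D ⊥ +
      2 * (1 / 2) * (1 - 1 / 2) * ((Gf A j).add A).D ⊥ + (1 - 1 / 2) ^ 2 * (A.add A).D ⊥ :=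
    mix_mix_D hp0 hp1 _ _ ⊥
  have h13 := D_nonneg ((Gf A j).add (Gf A j)) ⊥
  have h14 := D_nonneg (A.add A) ⊥
  have h15 := D_add_comm A (Gf A j) ⊥
  have h16 : s * (U.D ⊥ - U.D H) ≤ s * (((j : ℝ) + 2) / 2 * A.D ⊥) :=
    mul_le_mul_of_nonneg_left (by linarith [D_nonneg U H]) hs
  rw [h15]
  nlinarith

end

/-- the induction step -/
theorem LE_step {j : ℕ} {c δ s : ℝ} (hc : 0 < c) (hδ : 0 ≤ δ) (hs : 0 ≤ s)
    (hLE : LE (j + 1) (2 * c) δ) (hC : Contr ((2 * j + 3) * c) s) :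
    LE (j + 2) c (3 * δ + (j + 2) * s) := by
  intro G _ _ h2 A hA
  have h1 := LE_anti hLE (show c ≤ 2 * c by linarith) G h2 A hA
  have h3 := add_Gf_le h2 hc hδ hs hLE hC A hA
  rw [EN_succ]
  linarith

theorem lemE : LEME := by
  intro hC N
  induction N with
  | zero =>
    intro δ hδ
    refine ⟨1, one_pos, le_refl _, ?_⟩
    intro G _ _ _ A _
    rw [EN_zero]
    exact mul_nonneg hδ.le (D_nonneg A ⊥)
  | succ N ih =>
    intro δ hδ
    cases N with
    | zero =>
      refine ⟨1, one_pos, le_refl _, ?_⟩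
      intro G _ _ _ A _
      rw [zero_add, EN_one]
      exact mul_nonneg hδ.le (D_nonneg A ⊥)
    | succ j =>
      obtain ⟨c1, hc1, -, hLE⟩ := ih (δ / 6) (by positivity)
      obtain ⟨k, hk, hCk⟩ := hC (δ / (2 * ((j : ℝ) + 2))) (by positivity)
      have hj : (0 : ℝ) < 2 * (j : ℝ) + 3 := by positivity
      have hm : 0 < min (c1 / 2) (min (k / (2 * j + 3)) 1) :=
        lt_min (by positivity) (lt_min (by positivity) one_pos)
      refine ⟨min (c1 / 2) (min (k / (2 * j + 3)) 1), hm,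
        (min_le_right _ _).trans (min_le_right _ _), ?_⟩
      have h1 : 2 * min (c1 / 2) (min (k / (2 * j + 3)) 1) ≤ c1 := by
        have := min_le_left (c1 / 2) (min (k / (2 * j + 3)) 1)
        linarith
      have h2 : (2 * (j : ℝ) + 3) * min (c1 / 2) (min (k / (2 * j + 3)) 1) ≤ k := by
        have h3 : min (c1 / 2) (min (k / (2 * j + 3)) 1) ≤ k / (2 * j + 3) :=
          (min_le_right _ _).trans (min_le_left _ _)
        rw [le_div_iff₀ hj] at h3
        linarith
      have h3 := LE_step (j := j) hm (show (0 : ℝ) ≤ δ / 6 by positivity)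
        (show (0 : ℝ) ≤ δ / (2 * ((j : ℝ) + 2)) by positivity) (LE_anti hLE h1)
        (Contr_anti hCk h2)
      have h4 : 3 * (δ / 6) + ((j : ℝ) + 2) * (δ / (2 * ((j : ℝ) + 2))) = δ := by
        field_simp
        ring
      rw [h4] at h3
      exact h3

end Pool.Agent.Helper88.P2
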